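import Pool.Agent.Helper37.KDB.Extra

/-! Project KDB, piece P2. -/

set_option autoImplicit false

namespace KDB.I.P2

open MeasureTheory KDB
open scoped ENNReal

variable (p : Par)

theorem e2_nonneg {d : ℕ} (w : V d) : 0 ≤ e2 w := Real.sqrt_nonneg _

theorem e2_ge {d : ℕ} (w : V d) : ‖w‖ ≤ e2 w := by
  rw [pi_norm_le_iff_of_nonneg (e2_nonneg w)]
  intro i
  rw [Real.norm_eq_abs, ← Real.sqrt_sq_eq_abs]
  exact Real.sqrt_le_sqrt (Finset.single_le_sum (f := fun i => w i ^ 2)
    (fun j _ => sq_nonneg (w j)) (Finset.mem_univ i))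

theorem e2_meas {d : ℕ} : Measurable (e2 : V d → ℝ) := by
  unfold e2
  exact (Continuous.sqrt (by fun_prop)).measurable

def SS (p : Par) : Set (V p.d) := {w | p.eps ≤ ‖w‖ ∧ ‖w‖ < p.rho p.n}

theorem SS_meas : MeasurableSet (SS p) := by
  apply MeasurableSet.inter
  · exact measurableSet_le measurable_const measurable_norm
  · exact measurableSet_lt measurable_norm measurable_const

theorem kd_eq : p.kd = (SS p).indicator
    (fun w => p.lam * (e2 w) ^ (-((p.d : ℝ) + 2 * p.s))) := by
  funext w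
  unfold Par.kd SS Set.indicator
  simp only [Set.mem_ofPred_eq]

theorem kd_nonneg (hp : p.Ok) (w : V p.d) : 0 ≤ p.kd w := by
  unfold Par.kd
  split_ifs with h
  · exact mul_nonneg hp.hlam.le (Real.rpow_nonneg (e2_nonneg w) _)
  · exact le_rfl

theorem s_nonneg : 0 ≤ p.s := by
  unfold Par.s
  positivity

theorem kd_int (hp : p.Ok) : Integrable p.kd := by
  rw [kd_eq, integrable_indicator_iff (SS_meas p)]
  have hfin : volume (SS p) < ⊤ := by
    refine lt_of_le_of_lt (measure_mono (t := Metric.closedBall 0 (p.rho p.n)) ?_)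
      measure_closedBall_lt_top
    intro w hw
    rw [Metric.mem_closedBall, dist_zero_right]
    exact hw.2.le
  refine Measure.integrableOn_of_bounded (M := p.lam * p.eps ^ (-((p.d : ℝ) + 2 * p.s)))
    hfin.ne ?_ ?_
  · exact (measurable_const.mul (e2_meas.pow_const _)).aestronglyMeasurable
  · rw [ae_restrict_iff' (SS_meas p)]
    refine Filter.Eventually.of_forall fun w hw => ?_
    have h1 : p.eps ≤ e2 w := hw.1.trans (e2_ge w)
    rw [Real.norm_of_nonneg (mul_nonneg hp.hlam.le (Real.rpow_nonneg (e2_nonneg w) _))]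
    refine mul_le_mul_of_nonneg_left ?_ hp.hlam.le
    exact Real.rpow_le_rpow_of_nonpos hp.heps h1 (by have := s_nonneg p; have : (0:ℝ) ≤ p.d := by positivity
                                                     linarith)

theorem one_lt_rho (hp : p.Ok) : 1 < p.rho p.n := by
  unfold Par.rho Par.ell
  have h1 : 1 < p.L := by have := hp.hL; omega
  have h2 : 1 < p.L ^ p.q := Nat.one_lt_pow (by have := hp.hq; omega) h1
  have h3 : (1 : ℝ) < ((p.L ^ p.q : ℕ) : ℝ) := by exact_mod_cast h2
  exact one_lt_pow₀ h3 (by have := hp.hn; omega)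

theorem kap_pos (hp : p.Ok) : 0 < p.kap := by
  unfold Par.kap
  rw [integral_pos_iff_support_of_nonneg (fun w => kd_nonneg p hp w) (kd_int p hp)]
  have hop : IsOpen {w : V p.d | p.eps < ‖w‖ ∧ ‖w‖ < p.rho p.n} := by
    apply IsOpen.inter
    · exact isOpen_lt continuous_const continuous_norm
    · exact isOpen_lt continuous_norm continuous_const
  have hne : ({w : V p.d | p.eps < ‖w‖ ∧ ‖w‖ < p.rho p.n}).Nonempty := by
    refine ⟨fun _ => 1, ?_⟩
    have : Nonempty (Fin p.d) := ⟨⟨0, by have := hp.hd; omega⟩⟩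
    have h1 : ‖(fun _ => 1 : V p.d)‖ = 1 := by
      rw [pi_norm_const]; simp
    refine ⟨?_, ?_⟩
    · rw [h1]; exact hp.heps1
    · rw [h1]; exact one_lt_rho p hp
  refine lt_of_lt_of_le (hop.measure_pos volume hne) (measure_mono ?_)
  intro w hw
  rw [Function.mem_support]
  unfold Par.kd
  rw [if_pos ⟨hw.1.le, hw.2⟩]
  have h2 : 0 < e2 w := lt_of_lt_of_le (hp.heps.trans hw.1) (e2_ge w)
  exact (mul_pos hp.hlam (Real.rpow_pos_of_pos h2 _)).ne'

theorem kickLaw_prob (hp : p.Ok) : IsProbabilityMeasure p.kickLaw := by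
  constructor
  unfold Par.kickLaw
  rw [Measure.smul_apply, withDensity_apply _ MeasurableSet.univ, Measure.restrict_univ,
    ← ofReal_integral_eq_lintegral_ofReal (kd_int p hp)
      (Filter.Eventually.of_forall fun w => kd_nonneg p hp w)]
  change (ENNReal.ofReal p.kap)⁻¹ • ENNReal.ofReal p.kap = 1
  rw [smul_eq_mul]
  exact ENNReal.inv_mul_cancel (ENNReal.ofReal_pos.mpr (kap_pos p hp)).ne' ENNReal.ofReal_ne_top

end KDB.I.P2
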